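import Pool.Agent.H95.FG.Defs

open MvPolynomial

namespace H87.FG
open H95.FG

theorem chain {σ : Type*} [Fintype σ] (g : σ → Polynomial ℂ) (f : MvPolynomial σ ℂ) :
    Polynomial.derivative (aeval g f) =
      ∑ i, aeval g (pderiv i f) * Polynomial.derivative (g i) := by
  classical
  induction f using MvPolynomial.induction_on with
  | C a =>
    have h : aeval g (C a : MvPolynomial σ ℂ) = Polynomial.C a := by simp
    rw [h]
    simp
  | add p q hp hq => simp [hp, hq, Finset.sum_add_distrib, add_mul]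
  | mul_X p j hp =>
    have e : ∀ i, aeval g (pderiv i (p * X j)) * Polynomial.derivative (g i) =
        aeval g (pderiv i p) * Polynomial.derivative (g i) * g j +
          aeval g p * (if i = j then Polynomial.derivative (g i) else 0) := by
      intro i
      rw [pderiv_mul, pderiv_X, map_add, map_mul, map_mul, aeval_X]
      by_cases hij : i = j
      · subst hij
        rw [Pi.single_eq_same, map_one, if_pos rfl]
        ring
      · rw [if_neg hij, Pi.single_eq_of_ne (Ne.symm hij), map_zero]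
        ring
    rw [Finset.sum_congr rfl (fun i _ => e i), Finset.sum_add_distrib, ← Finset.sum_mul,
      ← Finset.mul_sum, Finset.sum_ite_eq', if_pos (Finset.mem_univ _), map_mul, aeval_X,
      Polynomial.derivative_mul, hp]

theorem eval_aeval {σ : Type*} (g : σ → Polynomial ℂ) (f : MvPolynomial σ ℂ) (x : ℂ) :
    (aeval g f : Polynomial ℂ).eval x = eval (fun i => (g i).eval x) f := by
  induction f using MvPolynomial.induction_on with
  | C a =>
    have h : aeval g (C a : MvPolynomial σ ℂ) = Polynomial.C a := by simp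
    rw [h]
    simp
  | add p q hp hq => simp [hp, hq]
  | mul_X p j hp => simp [hp]

/-- the polynomial `x ↦ A(w + x v, Y)` -/
noncomputable def LA {n : ℕ} (A : MvPolynomial (Fin n ⊕ Fin n) ℂ) (w v Y : Fin n → ℂ) :
    Polynomial ℂ :=
  aeval (Sum.elim (fun k => Polynomial.C (w k) + Polynomial.C (v k) * Polynomial.X)
    (fun k => Polynomial.C (Y k))) A

theorem eval_LA {n : ℕ} (A : MvPolynomial (Fin n ⊕ Fin n) ℂ) (w v Y : Fin n → ℂ) (x : ℂ) :
    (LA A w v Y).eval x = AA A (w + x • v) Y := by
  unfold LA AA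
  rw [eval_aeval]
  congr 2
  funext i
  rcases i with k | k
  · simp only [Sum.elim_inl, Polynomial.eval_add, Polynomial.eval_C, Polynomial.eval_mul,
      Polynomial.eval_X, Pi.add_apply, Pi.smul_apply, smul_eq_mul]
    ring
  · simp

theorem deriv_LA {n : ℕ} (A : MvPolynomial (Fin n ⊕ Fin n) ℂ) (w v Y : Fin n → ℂ) (x : ℂ) :
    (Polynomial.derivative (LA A w v Y)).eval x = dA A v (w + x • v) Y := by
  unfold LA dA
  rw [chain, Polynomial.eval_finsetSum, Fintype.sum_sum_type]
  have h2 : ∑ k : Fin n, Polynomial.eval x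
      (aeval (Sum.elim (fun k => Polynomial.C (w k) + Polynomial.C (v k) * Polynomial.X)
        (fun k => Polynomial.C (Y k))) (pderiv (Sum.inr k) A) *
        Polynomial.derivative (Sum.elim (fun k => Polynomial.C (w k) +
          Polynomial.C (v k) * Polynomial.X) (fun k => Polynomial.C (Y k))
            (Sum.inr k : Fin n ⊕ Fin n))) = 0 := by
    apply Finset.sum_eq_zero
    intro k _
    simp
  rw [h2, add_zero]
  apply Finset.sum_congr rfl
  intro k _
  rw [Polynomial.eval_mul, eval_aeval]
  have e : (fun i => Polynomial.eval x (Sum.elim (fun k => Polynomial.C (w k) +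
      Polynomial.C (v k) * Polynomial.X) (fun k => Polynomial.C (Y k)) (i : Fin n ⊕ Fin n))) =
      Sum.elim (w + x • v) Y := by
    funext i
    rcases i with k | k
    · simp only [Sum.elim_inl, Polynomial.eval_add, Polynomial.eval_C, Polynomial.eval_mul,
        Polynomial.eval_X, Pi.add_apply, Pi.smul_apply, smul_eq_mul]
      ring
    · simp
  rw [e]
  simp only [Sum.elim_inl, Polynomial.derivative_add, Polynomial.derivative_C,
    Polynomial.derivative_mul, Polynomial.derivative_X, Polynomial.eval_add,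
    Polynomial.eval_mul, Polynomial.eval_C, Polynomial.eval_zero, Polynomial.eval_one,
    Polynomial.eval_X]
  ring

theorem poly_ext_inf {f g : Polynomial ℂ} {S : Set ℂ} (hS : S.Infinite)
    (h : ∀ x ∈ S, f.eval x = g.eval x) : f = g :=
  Polynomial.eq_of_infinite_eval_eq f g (hS.mono (fun x hx => h x hx))

theorem ball_infinite {ε : ℝ} (hε : 0 < ε) : {τ : ℂ | ‖τ‖ < ε}.Infinite := by
  have h := infinite_of_mem_nhds (0 : ℂ) (Metric.ball_mem_nhds (0 : ℂ) hε)
  have e : {τ : ℂ | ‖τ‖ < ε} = Metric.ball (0 : ℂ) ε := by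
    ext τ
    simp
  rw [e]
  exact h

theorem ne_infinite : {τ : ℂ | τ ≠ 0}.Infinite := by
  have h : ({0} : Set ℂ)ᶜ.Infinite := (Set.finite_singleton (0 : ℂ)).infinite_compl
  exact h

/-- degree bound and top coefficient of `x ↦ A(w + x v, Y)` -/
theorem LA_deg {n d : ℕ} (A : MvPolynomial (Fin n ⊕ Fin n) ℂ) (Y : Fin n → ℂ)
    (hA : ∀ (c : ℂ) (z : Fin n → ℂ), AA A (c • z) Y = c ^ d * AA A z Y) (w v : Fin n → ℂ) :
    (LA A w v Y).natDegree ≤ d ∧ (LA A w v Y).coeff d = AA A v Y := by
  set P := LA A w v Y with hP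
  set R := LA A v w Y with hR
  set N := max d P.natDegree with hN
  have hdN : d ≤ N := le_max_left _ _
  have hPN : P.natDegree ≤ N := le_max_right _ _
  have key : Polynomial.reflect N P = Polynomial.X ^ (N - d) * R := by
    apply poly_ext_inf ne_infinite
    intro x hx
    have hx0 : x ≠ 0 := hx
    let _ : Invertible x⁻¹ := invertibleOfNonzero (inv_ne_zero hx0)
    have h1 := Polynomial.eval₂_reflect_mul_pow (RingHom.id ℂ) x⁻¹ N P hPN
    rw [invOf_eq_inv, inv_inv] at h1
    change (Polynomial.reflect N P).eval x * x⁻¹ ^ N = P.eval x⁻¹ at h1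
    rw [hP, eval_LA] at h1
    have h2 : AA A (w + x⁻¹ • v) Y * x ^ d = AA A (v + x • w) Y := by
      rw [mul_comm, ← hA]
      congr 1
      rw [smul_add, smul_smul, mul_inv_cancel₀ hx0, one_smul, add_comm]
    rw [Polynomial.eval_mul, Polynomial.eval_pow, Polynomial.eval_X, hR, eval_LA, ← h2, ← h1]
    have e : x ^ N = x ^ (N - d) * x ^ d := by
      rw [← pow_add, Nat.sub_add_cancel hdN]
    have e2 : x⁻¹ ^ N * x ^ N = 1 := by
      rw [← mul_pow, inv_mul_cancel₀ hx0, one_pow]
    calc (Polynomial.reflect N (LA A w v Y)).eval x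
        = (Polynomial.reflect N (LA A w v Y)).eval x * (x⁻¹ ^ N * x ^ N) := by rw [e2, mul_one]
      _ = _ := by rw [e]; ring
  have cf : ∀ j, j ≤ N → P.coeff j = (Polynomial.X ^ (N - d) * R).coeff (N - j) := by
    intro j hj
    rw [← key, Polynomial.coeff_reflect, Polynomial.revAt_le (Nat.sub_le _ _),
      Nat.sub_sub_self hj]
  constructor
  · rw [Polynomial.natDegree_le_iff_coeff_eq_zero]
    intro j hj
    by_cases hjN : j ≤ N
    · rw [cf j hjN, Polynomial.coeff_X_pow_mul', if_neg (by omega)]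
    · exact Polynomial.coeff_eq_zero_of_natDegree_lt (by omega)
  · rw [cf d hdN, Polynomial.coeff_X_pow_mul', if_pos le_rfl, Nat.sub_self,
      Polynomial.coeff_zero_eq_eval_zero, hR, eval_LA, zero_smul, add_zero]

/-- the coefficients of `s ↦ A(s z₁ + z₂ + τ u, Y)` are polynomials in `τ` -/
theorem LA_coeff_poly {n : ℕ} (A : MvPolynomial (Fin n ⊕ Fin n) ℂ) (z1 z2 u Y : Fin n → ℂ)
    (j : ℕ) : ∃ S : Polynomial ℂ, ∀ τ : ℂ, (LA A (z2 + τ • u) z1 Y).coeff j = S.eval τ := by
  refine ⟨(aeval (Sum.elim (fun k => (Polynomial.C (Polynomial.C (z2 k) +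
    Polynomial.C (u k) * Polynomial.X) + Polynomial.C (Polynomial.C (z1 k)) * Polynomial.X :
      Polynomial (Polynomial ℂ)))
    (fun k => Polynomial.C (Polynomial.C (Y k)))) A : Polynomial (Polynomial ℂ)).coeff j, ?_⟩
  intro τ
  have h : ∀ B : MvPolynomial (Fin n ⊕ Fin n) ℂ,
      Polynomial.map (Polynomial.evalRingHom τ)
        (aeval (Sum.elim (fun k => (Polynomial.C (Polynomial.C (z2 k) +
          Polynomial.C (u k) * Polynomial.X) + Polynomial.C (Polynomial.C (z1 k)) * Polynomial.X :
          Polynomial (Polynomial ℂ))) (fun k => Polynomial.C (Polynomial.C (Y k)))) B) =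
        LA B (z2 + τ • u) z1 Y := by
    intro B
    unfold LA
    induction B using MvPolynomial.induction_on with
    | C a =>
      rw [aeval_C, aeval_C]
      simp [Polynomial.algebraMap_apply]
    | add p q hp hq => rw [map_add, map_add, Polynomial.map_add, hp, hq]
    | mul_X p i hp =>
      rw [map_mul, map_mul, Polynomial.map_mul, hp, aeval_X, aeval_X]
      congr 1
      rcases i with k | k
      · simp only [Sum.elim_inl, Polynomial.map_add, Polynomial.map_mul, Polynomial.map_C,
          Polynomial.map_X, Polynomial.coe_evalRingHom, Polynomial.eval_add, Polynomial.eval_C,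
          Polynomial.eval_mul, Polynomial.eval_X, Pi.add_apply, Pi.smul_apply, smul_eq_mul,
          mul_comm τ]
      · simp
  rw [← h A, Polynomial.coeff_map, Polynomial.coe_evalRingHom]

/-- a polynomial of degree `d ≥ 1` with only one root is a power -/
theorem one_root {d : ℕ} (hd : 1 ≤ d) (Q : Polynomial ℂ) (h1 : Q.natDegree ≤ d)
    (h2 : Q.coeff d ≠ 0) (h3 : ∀ s s' : ℂ, Q.eval s = 0 → Q.eval s' = 0 → s = s') :
    ∃ s : ℂ, Q = Polynomial.C (Q.coeff d) * (Polynomial.X - Polynomial.C s) ^ d := by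
  have hdeg : Q.natDegree = d := le_antisymm h1 (Polynomial.le_natDegree_of_ne_zero h2)
  have hQ0 : Q ≠ 0 := by
    rintro rfl
    exact h2 (by simp)
  have hsp := IsAlgClosed.splits Q
  have hcard : Multiset.card Q.roots = d := by
    rw [← hdeg]
    exact hsp.natDegree_eq_card_roots.symm
  obtain ⟨s, hs⟩ : ∃ s, s ∈ Q.roots := by
    apply Multiset.card_pos_iff_exists_mem.mp
    omega
  refine ⟨s, ?_⟩
  have hrep : Q.roots = Multiset.replicate d s := by
    rw [Multiset.eq_replicate]
    refine ⟨hcard, ?_⟩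
    intro b hb
    exact h3 b s ((Polynomial.mem_roots hQ0).mp hb) ((Polynomial.mem_roots hQ0).mp hs)
  have hp := hsp.eq_prod_roots
  rw [hrep, Multiset.map_replicate, Multiset.prod_replicate] at hp
  have hl : Q.leadingCoeff = Q.coeff d := by rw [Polynomial.leadingCoeff, hdeg]
  rw [hl] at hp
  exact hp

/-- vanishing Wronskian of polynomials -/
theorem wronsk {f g : Polynomial ℂ} (hg : g ≠ 0)
    (h : Polynomial.derivative f * g = f * Polynomial.derivative g) :
    ∃ c : ℂ, f = Polynomial.C c * g := by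
  have hgn : g.coeff g.natDegree ≠ 0 := by
    rw [Polynomial.coeff_natDegree]
    exact Polynomial.leadingCoeff_ne_zero.mpr hg
  have xd : ∀ r : Polynomial ℂ, (Polynomial.X * Polynomial.derivative r).natDegree ≤
      r.natDegree ∧ ∀ m, (Polynomial.X * Polynomial.derivative r).coeff m = m * r.coeff m := by
    intro r
    have hc : ∀ m, (Polynomial.X * Polynomial.derivative r).coeff m = m * r.coeff m := by
      intro m
      rcases m with _ | m
      · simp
      · rw [Polynomial.coeff_X_mul, Polynomial.coeff_derivative]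
        push_cast
        ring
    refine ⟨?_, hc⟩
    rw [Polynomial.natDegree_le_iff_coeff_eq_zero]
    intro j hj
    rw [hc, Polynomial.coeff_eq_zero_of_natDegree_lt hj, mul_zero]
  have aux : ∀ r : Polynomial ℂ, Polynomial.derivative r * g = r * Polynomial.derivative g →
      r.coeff g.natDegree = 0 → r = 0 := by
    intro r hr h0
    by_contra hne
    have hrn : r.coeff r.natDegree ≠ 0 := by
      rw [Polynomial.coeff_natDegree]
      exact Polynomial.leadingCoeff_ne_zero.mpr hne
    have hmn : r.natDegree ≠ g.natDegree := by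
      intro h
      rw [h] at hrn
      exact hrn h0
    have e1 : (Polynomial.X * Polynomial.derivative r * g).coeff (r.natDegree + g.natDegree) =
        r.natDegree * r.coeff r.natDegree * g.coeff g.natDegree := by
      rw [Polynomial.coeff_mul_add_eq_of_natDegree_le (xd r).1 le_rfl, (xd r).2]
    have e2 : (r * (Polynomial.X * Polynomial.derivative g)).coeff
        (r.natDegree + g.natDegree) =
        r.coeff r.natDegree * (g.natDegree * g.coeff g.natDegree) := by
      rw [Polynomial.coeff_mul_add_eq_of_natDegree_le le_rfl (xd g).1, (xd g).2]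
    have e3 : Polynomial.X * Polynomial.derivative r * g =
        r * (Polynomial.X * Polynomial.derivative g) := by
      rw [mul_assoc, hr]
      ring
    rw [e3, e2] at e1
    have e4 : ((g.natDegree : ℂ) - r.natDegree) *
        (r.coeff r.natDegree * g.coeff g.natDegree) = 0 := by
      linear_combination e1
    rcases mul_eq_zero.mp e4 with h5 | h5
    · apply hmn
      have : (r.natDegree : ℂ) = g.natDegree := by linear_combination -h5
      exact_mod_cast this
    · exact (mul_ne_zero hrn hgn) h5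
  refine ⟨f.coeff g.natDegree / g.coeff g.natDegree, ?_⟩
  have h1 := aux (f - Polynomial.C (f.coeff g.natDegree / g.coeff g.natDegree) * g) (by
    rw [Polynomial.derivative_sub, Polynomial.derivative_C_mul]
    linear_combination h) (by
    rw [Polynomial.coeff_sub, Polynomial.coeff_C_mul]
    field_simp
    ring)
  exact sub_eq_zero.mp h1

/-- linear independence of three vectors, unpacked -/
theorem li3 {n : ℕ} {z1 z2 u : Fin n → ℂ} (h : LinearIndependent ℂ ![z1, z2, u])
    {x y t : ℂ} (e : x • z1 + y • z2 + t • u = 0) : x = 0 ∧ y = 0 ∧ t = 0 := by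
  rw [Fintype.linearIndependent_iff] at h
  have h1 := h ![x, y, t] (by
    rw [Fin.sum_univ_three]
    exact e)
  exact ⟨h1 0, h1 1, h1 2⟩

theorem li2_of {n : ℕ} {a b : Fin n → ℂ}
    (h : ∀ x y : ℂ, x • a + y • b = 0 → x = 0 ∧ y = 0) : LinearIndependent ℂ ![a, b] := by
  rw [LinearIndependent.pair_iff]
  exact h

theorem t_CASE2 (hHOMA : S_HOMA) (hCOL : S_COL) (hSTAR : S_STAR) : S_CASE2 := by
  intro n m d p A hsys hhom hd hpl z1 z2 u Y ε hε hli hz1 hz2 hu hA1 hZF huniq
  have hn : 1 ≤ n := by
    rcases Nat.eq_zero_or_pos n with h | h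
    · exfalso
      subst h
      exact hli.ne_zero 0 (Subsingleton.elim _ _)
    · exact h
  have hA : ∀ (c : ℂ) (z : Fin n → ℂ), AA A (c • z) Y = c ^ d * AA A z Y :=
    fun c z => (hHOMA n m d p A hn hsys hhom c z Y).1
  set c0 := AA A z1 Y with hc0
  -- the roots
  have hroot : ∀ τ : ℂ, ‖τ‖ < ε → ∃ s : ℂ, LA A (z2 + τ • u) z1 Y =
      Polynomial.C c0 * (Polynomial.X - Polynomial.C s) ^ d := by
    intro τ hτ
    obtain ⟨h1, h2⟩ := LA_deg A Y hA (z2 + τ • u) z1
    obtain ⟨s, hs⟩ := one_root (by omega : 1 ≤ d) (LA A (z2 + τ • u) z1 Y) h1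
      (by rw [h2]; exact hA1) (by
        intro s s' hs hs'
        rw [eval_LA] at hs hs'
        apply huniq τ hτ s s'
        · rw [← hs]
          congr 1
          abel
        · rw [← hs']
          congr 1
          abel)
    rw [h2] at hs
    exact ⟨s, hs⟩
  obtain ⟨S1, hS1⟩ := LA_coeff_poly A z1 z2 u Y (d - 1)
  set S : Polynomial ℂ := Polynomial.C (-(1 / (d * c0))) * S1 with hS
  have hdc : (d : ℂ) * c0 ≠ 0 := mul_ne_zero (by exact_mod_cast (by omega : d ≠ 0)) hA1
  have hSroot : ∀ τ : ℂ, ‖τ‖ < ε → LA A (z2 + τ • u) z1 Y =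
      Polynomial.C c0 * (Polynomial.X - Polynomial.C (S.eval τ)) ^ d := by
    intro τ hτ
    obtain ⟨s, hs⟩ := hroot τ hτ
    have h1 := hS1 τ
    rw [hs, Polynomial.coeff_C_mul, sub_eq_add_neg, ← Polynomial.C_neg,
      Polynomial.coeff_X_add_C_pow] at h1
    have e1 : d - (d - 1) = 1 := by omega
    have e2 : (d.choose (d - 1) : ℂ) = d := by
      have : d.choose (d - 1) = d := by
        rw [← Nat.choose_symm (by omega : d - 1 ≤ d), e1, Nat.choose_one_right]
      rw [this]
    rw [e1, e2, pow_one] at h1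
    have h2 : S.eval τ = s := by
      have hd0 : (d : ℂ) ≠ 0 := by exact_mod_cast (by omega : d ≠ 0)
      rw [hS, Polynomial.eval_mul, Polynomial.eval_C, ← h1]
      field_simp
    rw [h2]
    exact hs
  -- S is affine
  have hSdeg : S.natDegree ≤ 1 := by
    have e : LA A z2 u Y = Polynomial.C c0 * (-S) ^ d := by
      apply poly_ext_inf (ball_infinite hε)
      intro τ hτ
      have h1 := congrArg (Polynomial.eval 0) (hSroot τ hτ)
      rw [eval_LA, zero_smul, add_zero] at h1
      rw [eval_LA, h1]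
      simp
    have h2 := (LA_deg A Y hA z2 u).1
    rw [e, Polynomial.natDegree_C_mul hA1, Polynomial.natDegree_pow,
      Polynomial.natDegree_neg] at h2
    by_contra h3
    have h4 : d * 2 ≤ d * S.natDegree := Nat.mul_le_mul_left d (by omega)
    omega
  obtain ⟨κ, s0, hSe⟩ : ∃ κ s0 : ℂ, ∀ τ : ℂ, S.eval τ = s0 + κ * τ := by
    refine ⟨S.coeff 1, S.coeff 0, ?_⟩
    intro τ
    have h1 := Polynomial.eq_X_add_C_of_natDegree_le_one hSdeg
    conv_lhs => rw [h1]
    simp
    ring
  -- the identity for all s, τ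
  have hid : ∀ s τ : ℂ, AA A (s • z1 + z2 + τ • u) Y = c0 * (s - s0 - κ * τ) ^ d := by
    intro s
    have e : LA A (s • z1 + z2) u Y = Polynomial.C c0 *
        (Polynomial.C (s - s0) - Polynomial.C κ * Polynomial.X) ^ d := by
      apply poly_ext_inf (ball_infinite hε)
      intro τ hτ
      have h1 := congrArg (Polynomial.eval s) (hSroot τ hτ)
      rw [eval_LA] at h1
      rw [eval_LA]
      have e1 : s • z1 + z2 + τ • u = z2 + τ • u + s • z1 := by abel
      rw [e1, h1]
      simp only [Polynomial.eval_mul, Polynomial.eval_C, Polynomial.eval_pow,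
        Polynomial.eval_sub, Polynomial.eval_X]
      rw [hSe]
      ring
    intro τ
    have h1 := congrArg (Polynomial.eval τ) e
    rw [eval_LA] at h1
    rw [h1]
    simp only [Polynomial.eval_mul, Polynomial.eval_C, Polynomial.eval_pow,
      Polynomial.eval_sub, Polynomial.eval_X]
  -- the curve
  set y0 : Fin n → ℂ := s0 • z1 + z2 with hy0
  set v0 : Fin n → ℂ := κ • z1 + u with hv0
  have hyf : ∀ (s τ : ℂ), y0 + τ • v0 + s • z1 = (s + s0 + κ * τ) • z1 + z2 + τ • u := by
    intro s τ
    rw [hy0, hv0, smul_add, smul_smul, add_smul, add_smul, mul_comm κ τ]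
    abel
  have hAy : ∀ s τ : ℂ, AA A (y0 + τ • v0 + s • z1) Y = c0 * s ^ d := by
    intro s τ
    rw [hyf, hid]
    congr 2
    ring
  have hAy0 : ∀ τ : ℂ, AA A (y0 + τ • v0) Y = 0 := by
    intro τ
    have h := hAy 0 τ
    rw [zero_smul, add_zero, zero_pow (by omega), mul_zero] at h
    exact h
  have hd1 : ∀ τ : ℂ, dA A z1 (y0 + τ • v0) Y = 0 := by
    intro τ
    have e : LA A (y0 + τ • v0) z1 Y = Polynomial.C c0 * Polynomial.X ^ d := by
      apply Polynomial.funext
      intro s
      rw [eval_LA, hAy]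
      simp
    have h := deriv_LA A (y0 + τ • v0) z1 Y 0
    rw [zero_smul, add_zero, e] at h
    rw [← h]
    simp only [Polynomial.derivative_C_mul, Polynomial.derivative_X_pow, Polynomial.eval_mul,
      Polynomial.eval_C, Polynomial.eval_pow, Polynomial.eval_X]
    rw [zero_pow (by omega)]
    simp
  have hd2 : ∀ τ : ℂ, dA A v0 (y0 + τ • v0) Y = 0 := by
    intro τ
    have e : LA A y0 v0 Y = 0 := by
      apply Polynomial.funext
      intro s
      rw [eval_LA, hAy0]
      simp
    have h := deriv_LA A y0 v0 Y τ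
    rw [e] at h
    rw [← h]
    simp
  have hd3 : ∀ τ : ℂ, dA A (v0 + z1) (y0 + τ • v0) Y = 0 := by
    intro τ
    have h : dA A (v0 + z1) (y0 + τ • v0) Y =
        dA A v0 (y0 + τ • v0) Y + dA A z1 (y0 + τ • v0) Y := by
      unfold dA
      rw [← Finset.sum_add_distrib]
      apply Finset.sum_congr rfl
      intro k _
      rw [Pi.add_apply]
      ring
    rw [h, hd1, hd2, add_zero]
  -- orthogonality
  have hyY : ∀ τ : ℂ, ∑ k, (y0 + τ • v0) k * Y k = 0 := by
    intro τ
    have e : ∑ k, (y0 + τ • v0) k * Y k = s0 * ∑ k, z1 k * Y k + ∑ k, z2 k * Y k +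
        τ * (κ * ∑ k, z1 k * Y k + ∑ k, u k * Y k) := by
      rw [Finset.mul_sum, Finset.mul_sum, ← Finset.sum_add_distrib, ← Finset.sum_add_distrib,
        Finset.mul_sum, ← Finset.sum_add_distrib]
      apply Finset.sum_congr rfl
      intro k _
      simp only [hy0, hv0, Pi.add_apply, Pi.smul_apply, smul_eq_mul]
      ring
    rw [e, hz1, hz2, hu]
    ring
  have hvY : ∑ k, (v0 + z1) k * Y k = 0 := by
    have e : ∑ k, (v0 + z1) k * Y k = κ * ∑ k, z1 k * Y k + ∑ k, u k * Y k +
        ∑ k, z1 k * Y k := by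
      rw [Finset.mul_sum, ← Finset.sum_add_distrib, ← Finset.sum_add_distrib]
      apply Finset.sum_congr rfl
      intro k _
      simp only [hv0, Pi.add_apply, Pi.smul_apply, smul_eq_mul]
      ring
    rw [e, hz1, hu]
    ring
  -- independence
  have hyli1 : ∀ τ : ℂ, LinearIndependent ℂ ![y0 + τ • v0, z1] := by
    intro τ
    apply li2_of
    intro x y e
    have e2 : (x * (s0 + κ * τ) + y) • z1 + x • z2 + (x * τ) • u = 0 := by
      rw [← e, hy0, hv0]
      funext k
      simp only [Pi.add_apply, Pi.smul_apply, smul_eq_mul]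
      ring
    obtain ⟨h1, h2, h3⟩ := li3 hli e2
    subst h2
    refine ⟨rfl, ?_⟩
    linear_combination h1
  have hyli2 : ∀ τ : ℂ, LinearIndependent ℂ ![y0 + τ • v0, v0 + z1] := by
    intro τ
    apply li2_of
    intro x y e
    have e2 : (x * (s0 + κ * τ) + y * (κ + 1)) • z1 + x • z2 + (x * τ + y) • u = 0 := by
      rw [← e, hy0, hv0]
      funext k
      simp only [Pi.add_apply, Pi.smul_apply, smul_eq_mul]
      ring
    obtain ⟨h1, h2, h3⟩ := li3 hli e2
    subst h2
    refine ⟨rfl, ?_⟩
    linear_combination h3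
  -- values do not vanish
  have hev : ∀ τ : ℂ, ‖τ‖ < ε → ev p (y0 + τ • v0) ≠ 0 := by
    intro τ hτ
    have h := hZF τ hτ (s0 + κ * τ) 1 (Or.inr one_ne_zero)
    have e : (s0 + κ * τ) • z1 + (1 : ℂ) • (z2 + τ • u) = y0 + τ • v0 := by
      have := hyf 0 τ
      rw [zero_smul, add_zero, zero_add] at this
      rw [this, one_smul]
      abel
    rw [e] at h
    exact h
  -- collapse
  have hpar : ∀ τ : ℂ, ‖τ‖ < ε → ∃ μ : ℂ, dp p v0 (y0 + τ • v0) = μ • ev p (y0 + τ • v0) := by
    intro τ hτ
    have c1 := (hCOL n m p A hsys hpl (y0 + τ • v0) z1 Y (hyli1 τ) (hyY τ) hz1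
      ⟨0, 1, by rw [zero_smul, one_smul, zero_add]; exact hA1⟩).2 1 0 0 1
      (by rw [zero_smul, one_smul, add_zero]; exact hAy0 τ)
      (by
        have g1 : (0 : ℂ) • (y0 + τ • v0) + (1 : ℂ) • z1 = z1 := by
          rw [zero_smul, one_smul, zero_add]
        have g2 : (1 : ℂ) • (y0 + τ • v0) + (0 : ℂ) • z1 = y0 + τ • v0 := by
          rw [zero_smul, one_smul, add_zero]
        rw [g1, g2]
        exact hd1 τ)
    have g1 : (0 : ℂ) • (y0 + τ • v0) + (1 : ℂ) • z1 = z1 := by
      rw [zero_smul, one_smul, zero_add]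
    have g2 : (1 : ℂ) • (y0 + τ • v0) + (0 : ℂ) • z1 = y0 + τ • v0 := by
      rw [zero_smul, one_smul, add_zero]
    rw [g1, g2] at c1
    have c2 := (hCOL n m p A hsys hpl (y0 + τ • v0) (v0 + z1) Y (hyli2 τ) (hyY τ) hvY
      ⟨1, 1, by
        rw [one_smul, one_smul]
        have e : y0 + τ • v0 + (v0 + z1) = y0 + (τ + 1) • v0 + (1 : ℂ) • z1 := by
          rw [add_smul, one_smul, one_smul]
          abel
        rw [e, hAy, one_pow, mul_one]
        exact hA1⟩).2 1 0 0 1
      (by rw [zero_smul, one_smul, add_zero]; exact hAy0 τ)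
      (by
        have g1 : (0 : ℂ) • (y0 + τ • v0) + (1 : ℂ) • (v0 + z1) = v0 + z1 := by
          rw [zero_smul, one_smul, zero_add]
        have g2 : (1 : ℂ) • (y0 + τ • v0) + (0 : ℂ) • (v0 + z1) = y0 + τ • v0 := by
          rw [zero_smul, one_smul, add_zero]
        rw [g1, g2]
        exact hd3 τ)
    have g3 : (0 : ℂ) • (y0 + τ • v0) + (1 : ℂ) • (v0 + z1) = v0 + z1 := by
      rw [zero_smul, one_smul, zero_add]
    have g4 : (1 : ℂ) • (y0 + τ • v0) + (0 : ℂ) • (v0 + z1) = y0 + τ • v0 := by
      rw [zero_smul, one_smul, add_zero]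
    rw [g3, g4] at c2
    have q1 : ∃ α : ℂ, dp p z1 (y0 + τ • v0) = α • ev p (y0 + τ • v0) := by
      by_contra hcon
      push Not at hcon
      apply c1
      rw [LinearIndependent.pair_iff' (hev τ hτ)]
      intro a ha
      exact hcon a ha.symm
    have q2 : ∃ α : ℂ, dp p (v0 + z1) (y0 + τ • v0) = α • ev p (y0 + τ • v0) := by
      by_contra hcon
      push Not at hcon
      apply c2
      rw [LinearIndependent.pair_iff' (hev τ hτ)]
      intro a ha
      exact hcon a ha.symm
    obtain ⟨α, hα⟩ := q1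
    obtain ⟨β, hβ⟩ := q2
    refine ⟨β - α, ?_⟩
    have e : dp p v0 (y0 + τ • v0) = dp p (v0 + z1) (y0 + τ • v0) -
        dp p z1 (y0 + τ • v0) := by
      funext j
      unfold dp
      rw [Pi.sub_apply, ← Finset.sum_sub_distrib]
      apply Finset.sum_congr rfl
      intro k _
      rw [Pi.add_apply]
      ring
    rw [e, hα, hβ, sub_smul]
  -- the polynomials along the curve
  set F : Fin m → Polynomial ℂ := fun j =>
    aeval (fun k => Polynomial.C (y0 k) + Polynomial.C (v0 k) * Polynomial.X) (p j) with hF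
  have hFe : ∀ j τ, (F j).eval τ = ev p (y0 + τ • v0) j := by
    intro j τ
    rw [hF]
    unfold ev
    rw [eval_aeval]
    congr 2
    funext k
    simp only [Polynomial.eval_add, Polynomial.eval_C, Polynomial.eval_mul,
      Polynomial.eval_X, Pi.add_apply, Pi.smul_apply, smul_eq_mul]
    ring
  have hFd : ∀ j τ, (Polynomial.derivative (F j)).eval τ = dp p v0 (y0 + τ • v0) j := by
    intro j τ
    rw [hF]
    unfold dp
    rw [chain, Polynomial.eval_finsetSum]
    apply Finset.sum_congr rfl
    intro k _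
    rw [Polynomial.eval_mul, eval_aeval]
    have e : (fun i => Polynomial.eval τ (Polynomial.C (y0 i) +
        Polynomial.C (v0 i) * Polynomial.X)) = y0 + τ • v0 := by
      funext i
      simp only [Polynomial.eval_add, Polynomial.eval_C, Polynomial.eval_mul,
        Polynomial.eval_X, Pi.add_apply, Pi.smul_apply, smul_eq_mul]
      ring
    rw [e]
    simp only [Polynomial.derivative_add, Polynomial.derivative_C,
      Polynomial.derivative_mul, Polynomial.derivative_X, Polynomial.eval_add,
      Polynomial.eval_mul, Polynomial.eval_C, Polynomial.eval_zero, Polynomial.eval_one,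
      Polynomial.eval_X]
    ring
  have h00 : y0 + (0 : ℂ) • v0 = y0 := by rw [zero_smul, add_zero]
  have hev0 : ev p y0 ≠ 0 := by
    have h := hev 0 (by rw [norm_zero]; exact hε)
    rw [h00] at h
    exact h
  obtain ⟨j0, hj0⟩ : ∃ j0, ev p y0 j0 ≠ 0 := by
    by_contra hcon
    push Not at hcon
    exact hev0 (funext hcon)
  have hFj0 : (F j0).eval 0 ≠ 0 := by
    rw [hFe, h00]
    exact hj0
  have hFj0' : F j0 ≠ 0 := by
    intro h
    rw [h] at hFj0
    simp at hFj0
  have hprop : ∀ j, ∃ c : ℂ, F j = Polynomial.C c * F j0 := by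
    intro j
    apply wronsk hFj0'
    apply poly_ext_inf (ball_infinite hε)
    intro τ hτ
    rw [Polynomial.eval_mul, Polynomial.eval_mul, hFe, hFe, hFd, hFd]
    obtain ⟨μ, hμ⟩ := hpar τ hτ
    rw [hμ, Pi.smul_apply, Pi.smul_apply, smul_eq_mul, smul_eq_mul]
    ring
  choose c hc using hprop
  have hfin : ∀ τ, ev p (y0 + τ • v0) = ((F j0).eval τ / (F j0).eval 0) • ev p y0 := by
    intro τ
    funext j
    rw [Pi.smul_apply, smul_eq_mul, ← hFe]
    have h1 : ev p y0 j = (F j).eval 0 := by rw [hFe, h00]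
    rw [h1, hc j, Polynomial.eval_mul, Polynomial.eval_mul, Polynomial.eval_C,
      Polynomial.eval_C]
    field_simp
  apply hev0
  apply hSTAR n m p A hsys y0 (fun τ => y0 + τ • v0) {τ : ℂ | ‖τ‖ < ε} (ball_infinite hε)
  · intro σ hσ τ hτ hne
    apply li2_of
    intro x y e
    have e2 : (x * (s0 + κ * σ) + y * (s0 + κ * τ)) • z1 + (x + y) • z2 +
        (x * σ + y * τ) • u = 0 := by
      rw [← e, hy0, hv0]
      funext k
      simp only [Pi.add_apply, Pi.smul_apply, smul_eq_mul]
      ring
    obtain ⟨h1, h2, h3⟩ := li3 hli e2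
    have h4 : y = -x := by linear_combination h2
    rw [h4] at h3
    have h5 : x * (σ - τ) = 0 := by linear_combination h3
    rcases mul_eq_zero.mp h5 with h6 | h6
    · rw [h6] at h4 ⊢
      exact ⟨rfl, by rw [h4, neg_zero]⟩
    · exact absurd (sub_eq_zero.mp h6) hne
  · intro σ hσ
    refine ⟨(F j0).eval σ / (F j0).eval 0, ?_, hfin σ⟩
    intro h
    have h2 := hfin σ
    rw [h, zero_smul] at h2
    exact hev σ hσ h2

end H87.FG
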